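import Pool.Agent.Work.MP_0e28f3_gt.Final

/-!
# The Bowditch set is dense in a relative character variety of the one-holed torus

The character variety of the free group of rank two in `SL(2, ℂ)` is `ℂ³`, a character being
recorded by `(tr ρ(a), tr ρ(b), tr ρ(ab))`. For boundary trace `κ = 1000002` the characters which
satisfy the two conditions of Bowditch are dense in the level surface
`x² + y² + z² - xyz - 2 = κ`, so the complement of the Bowditch set has empty interior there.
-/

namespace Pool.Agent.Results.MP_0e28f3_gt.BowditchDense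

open FreeGroup (of)
open Pool.MP_0e28f3_gt (tr tv rho level BQ Bad Prim CI)

/-- The character of a representation `ρ` of the free group on `a = of 0`, `b = of 1`: the point
`(tr ρ(a), tr ρ(b), tr ρ(ab))` of `ℂ³`. -/
def coords (ρ : FreeGroup (Fin 2) →* Matrix.SpecialLinearGroup (Fin 2) ℂ) : Fin 3 → ℂ :=
  ![(ρ (of 0)).1.trace, (ρ (of 1)).1.trace, (ρ (of 0 * of 1)).1.trace]

/-- Primitive elements: the images of the generator `a` under automorphisms. Their conjugacy
classes, up to inversion, are the essential simple closed curves of the one-holed torus. -/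
def Primitive (w : FreeGroup (Fin 2)) : Prop := ∃ φ : MulAut (FreeGroup (Fin 2)), φ (of 0) = w

/-- The two conditions of Bowditch: no trace of an essential simple closed curve lies in the
interval `[-2, 2]`, and only finitely many such curves have trace of absolute value at most `2`. -/
def Bowditch (ρ : FreeGroup (Fin 2) →* Matrix.SpecialLinearGroup (Fin 2) ℂ) : Prop :=
  (∀ w, Primitive w → (ρ w).1.trace ∉ (fun t : ℝ => (t : ℂ)) '' Set.Icc (-2) 2) ∧
  {c : ConjClasses (FreeGroup (Fin 2)) |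
    ∃ w, Primitive w ∧ ConjClasses.mk w = c ∧ ‖(ρ w).1.trace‖ ≤ 2}.Finite

/-- The Bowditch set: the points of `ℂ³` which are characters of some representation, and all of
whose representations satisfy the conditions of Bowditch. -/
def bowditchSet : Set (Fin 3 → ℂ) :=
  {v | (∃ ρ, coords ρ = v) ∧ ∀ ρ, coords ρ = v → Bowditch ρ}

/-- The relative character variety `x² + y² + z² - xyz - 2 = κ`. -/
def relVar (κ : ℂ) : Set (Fin 3 → ℂ) :=
  {v | v 0 ^ 2 + v 1 ^ 2 + v 2 ^ 2 - v 0 * v 1 * v 2 - 2 = κ}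

theorem rho_eq (ρ : FreeGroup (Fin 2) →* Matrix.SpecialLinearGroup (Fin 2) ℂ) :
    rho (ρ (of 0)) (ρ (of 1)) = ρ := by
  apply FreeGroup.ext_hom
  intro i
  fin_cases i
  · simp [rho]
  · simp [rho]

theorem coords_eq (ρ : FreeGroup (Fin 2) →* Matrix.SpecialLinearGroup (Fin 2) ℂ) :
    coords ρ = tv (ρ (of 0)) (ρ (of 1)) := by
  simp only [coords, tv, tr, map_mul]

/-- The trace of a primitive element depends only on the character. -/
theorem trace_eq_of_coords {ρ ρ' : FreeGroup (Fin 2) →* Matrix.SpecialLinearGroup (Fin 2) ℂ}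
    (h : coords ρ = coords ρ') {w : FreeGroup (Fin 2)} (hw : Primitive w) :
    (ρ w).1.trace = (ρ' w).1.trace := by
  have h0 : tr (ρ (of 0)) = tr (ρ' (of 0)) := congrFun h 0
  have h1 : tr (ρ (of 1)) = tr (ρ' (of 1)) := congrFun h 1
  have h2 : tr (ρ (of 0) * ρ (of 1)) = tr (ρ' (of 0) * ρ' (of 1)) := by
    have := congrFun h 2
    simpa [coords, tr] using this
  obtain ⟨s, hs, hc⟩ := Pool.MP_0e28f3_gt.prim_std (w := w) hw
  have e1 : tr (ρ w) = tr (ρ s) := by
    have := Pool.MP_0e28f3_gt.tr_rho_CI (ρ (of 0)) (ρ (of 1)) hc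
    rwa [rho_eq] at this
  have e2 : tr (ρ' w) = tr (ρ' s) := by
    have := Pool.MP_0e28f3_gt.tr_rho_CI (ρ' (of 0)) (ρ' (of 1)) hc
    rwa [rho_eq] at this
  have e3 : tr (ρ s) = tr (ρ' s) := by
    rcases hs with rfl | rfl | ⟨p, rfl⟩ | ⟨p, rfl⟩
    · exact h0
    · exact h1
    · rw [Pool.MP_0e28f3_gt.map_elt, Pool.MP_0e28f3_gt.map_elt, Pool.MP_0e28f3_gt.tr_elt,
        Pool.MP_0e28f3_gt.tr_elt, h0, h1, h2]
    · rw [Pool.MP_0e28f3_gt.map_elt, Pool.MP_0e28f3_gt.map_elt, Pool.MP_0e28f3_gt.tr_elt,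
        Pool.MP_0e28f3_gt.tr_elt, map_inv, map_inv, Pool.MP_0e28f3_gt.tr_inv,
        Pool.MP_0e28f3_gt.tr_inv, Pool.MP_0e28f3_gt.tr_mul_inv, Pool.MP_0e28f3_gt.tr_mul_inv,
        h0, h1, h2]
  exact e1.trans (e3.trans e2.symm)

theorem bowditch_congr {ρ ρ' : FreeGroup (Fin 2) →* Matrix.SpecialLinearGroup (Fin 2) ℂ}
    (h : coords ρ = coords ρ') (hB : Bowditch ρ) : Bowditch ρ' := by
  refine ⟨fun w hw => ?_, hB.2.subset ?_⟩
  · rw [← trace_eq_of_coords h hw]
    exact hB.1 w hw
  · rintro c ⟨w, hw, hc, hn⟩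
    refine ⟨w, hw, hc, ?_⟩
    rwa [trace_eq_of_coords h hw]

theorem bowditch_of_BQ (A B : Matrix.SpecialLinearGroup (Fin 2) ℂ) (h : BQ A B) :
    Bowditch (rho A B) := by
  obtain ⟨h1, S, hS⟩ := h
  constructor
  · rintro w hw ⟨t, ht, hte⟩
    refine h1 w hw ⟨?_, ?_⟩
    · rw [tr, ← hte]
      simp
    · rw [tr, ← hte]
      simpa [abs_le] using ht
  · refine Set.Finite.subset ((S.finite_toSet.image ConjClasses.mk).union
      (S.finite_toSet.image (fun s => ConjClasses.mk s⁻¹))) ?_
    rintro c ⟨w, hw, rfl, hn⟩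
    obtain ⟨s, hs, hc | hc⟩ := hS w hw hn
    · left
      exact ⟨s, hs, (ConjClasses.mk_eq_mk_iff_isConj.mpr hc).symm⟩
    · right
      exact ⟨s, hs, (ConjClasses.mk_eq_mk_iff_isConj.mpr hc).symm⟩

theorem mem_bowditchSet (A B : Matrix.SpecialLinearGroup (Fin 2) ℂ) (h : BQ A B) :
    tv A B ∈ bowditchSet := by
  have h1 : coords (rho A B) = tv A B := by
    rw [coords_eq]
    simp
  refine ⟨⟨_, h1⟩, fun ρ hρ => ?_⟩
  exact bowditch_congr (h1.trans hρ.symm) (bowditch_of_BQ A B h)

/-- For boundary trace `κ = 1000002` the relative character variety is non-empty, the Bowditch set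
is dense in it, and the complement of the Bowditch set has empty interior in it. -/
theorem result :
    (relVar 1000002).Nonempty ∧
    Dense {p : relVar 1000002 | (p : Fin 3 → ℂ) ∈ bowditchSet} ∧
    interior {p : relVar 1000002 | (p : Fin 3 → ℂ) ∉ bowditchSet} = ∅ := by
  have hd : Dense {p : relVar 1000002 | (p : Fin 3 → ℂ) ∈ bowditchSet} := by
    rw [dense_iff_inter_open]
    rintro _ ⟨U, hU, rfl⟩ ⟨p, hp⟩
    have hlev : level (p : Fin 3 → ℂ) = 1000004 := by
      have := p.2
      simp only [relVar, Set.mem_ofPred_eq] at this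
      simp only [level]
      linear_combination this
    obtain ⟨A, B, h1, h2, h3⟩ := Pool.MP_0e28f3_gt.dense_BQ U hU p hp hlev
    have h4 : tv A B ∈ relVar 1000002 := by
      simp only [relVar, Set.mem_ofPred_eq]
      simp only [level] at h2
      linear_combination h2
    exact ⟨⟨tv A B, h4⟩, h1, mem_bowditchSet A B h3⟩
  refine ⟨?_, hd, ?_⟩
  · obtain ⟨R, hR⟩ := Pool.MP_0e28f3_gt.exists_sqrt 1000004
    refine ⟨![R, 0, 0], ?_⟩
    simp only [relVar, Set.mem_ofPred_eq, Matrix.cons_val_zero, Matrix.cons_val_one,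
      Matrix.cons_val]
    linear_combination hR
  · have := hd.interior_compl
    exact this

end Pool.Agent.Results.MP_0e28f3_gt.BowditchDense
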